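import Mathlib

/-!
# Linear forests as finite sets of edges (helper240, MP_4dfdc8_co)

A graph on `V` is given by the finite set `E` of its edges.  `deg E v` is the degree and a linear
forest is described by the absence of nonempty unions of cycles.
-/

set_option autoImplicit false

namespace Pool.Agent.H240P

variable {V : Type*} [Fintype V] [DecidableEq V]

/-- The degree of `v` in the graph with edge set `E`. -/
def deg (E : Finset (Sym2 V)) (v : V) : ℕ := (E.filter (fun e => v ∈ e)).card

/-- `W` is a union of components of `E`. -/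
def Closed (E : Finset (Sym2 V)) (W : Finset V) : Prop :=
  ∀ e ∈ E, ∀ v ∈ e, v ∈ W → ∀ w ∈ e, w ∈ W

/-- `E` is the edge set of a linear forest. -/
structure Lin (E : Finset (Sym2 V)) : Prop where
  nodiag : ∀ e ∈ E, ¬ e.IsDiag
  deg_le : ∀ v, deg E v ≤ 2
  acyc : ∀ W : Finset V, Closed E W → (∀ v ∈ W, deg E v = 2) → W = ∅

/-- `x` and `y` are the two ends of one path component of `E`. -/
def Joined (E : Finset (Sym2 V)) (x y : V) : Prop :=
  deg E x = 1 ∧ deg E y = 1 ∧ ∃ W : Finset V, Closed E W ∧ x ∈ W ∧ y ∈ W ∧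
    ∀ v ∈ W, v ≠ x → v ≠ y → deg E v = 2

omit [Fintype V] in
lemma Joined.symm {E : Finset (Sym2 V)} {x y : V} (h : Joined E x y) : Joined E y x := by
  obtain ⟨h1, h2, W, hW, hx, hy, h⟩ := h
  exact ⟨h2, h1, W, hW, hy, hx, fun v hv h3 h4 => h v hv h4 h3⟩

omit [Fintype V] in
lemma Closed.inter {E : Finset (Sym2 V)} {W W' : Finset V} (h : Closed E W) (h' : Closed E W') :
    Closed E (W ∩ W') := by
  intro e he v hv hvW w hw
  rw [Finset.mem_inter] at hvW ⊢
  exact ⟨h e he v hv hvW.1 w hw, h' e he v hv hvW.2 w hw⟩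

omit [Fintype V] in
/-- Handshake on a union of components. -/
lemma even_sum_deg {E : Finset (Sym2 V)} (hE : ∀ e ∈ E, ¬ e.IsDiag) {W : Finset V}
    (hW : Closed E W) : Even (∑ v ∈ W, deg E v) := by
  have h1 : ∑ v ∈ W, deg E v = ∑ e ∈ E, (W.filter (fun v => v ∈ e)).card := by
    unfold deg
    exact Finset.sum_card_bipartiteAbove_eq_sum_card_bipartiteBelow (fun v e => v ∈ e)
  rw [h1]
  apply Finset.even_sum
  intro e he
  by_cases h : ∃ v ∈ e, v ∈ W
  · obtain ⟨v, hv, hvW⟩ := h
    have h2 : W.filter (fun v => v ∈ e) = e.toFinset := by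
      ext w
      simp only [Finset.mem_filter, Sym2.mem_toFinset]
      exact ⟨fun h => h.2, fun h => ⟨hW e he v hv hvW w h, h⟩⟩
    rw [h2, Sym2.card_toFinset_of_not_isDiag e (hE e he)]
    exact ⟨1, rfl⟩
  · have h2 : W.filter (fun v => v ∈ e) = ∅ := by
      rw [Finset.filter_eq_empty_iff]
      intro v hv hve
      exact h ⟨v, hve, hv⟩
    rw [h2]; exact ⟨0, rfl⟩

omit [Fintype V] in
/-- An end of a path component is joined to only one vertex. -/
lemma joined_unique {E : Finset (Sym2 V)} (hE : ∀ e ∈ E, ¬ e.IsDiag) {x y z : V}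
    (hxy : x ≠ y) (hxz : x ≠ z) (hyz : y ≠ z) (h1 : Joined E x y) (h2 : Joined E x z) : False := by
  obtain ⟨hx, hy, W, hW, hxW, hyW, hd⟩ := h1
  obtain ⟨-, hz, W', hW', hxW', hzW', hd'⟩ := h2
  have hyW' : y ∉ W' := by
    intro h
    have := hd' y h hxy.symm hyz
    omega
  have hzW : z ∉ W := by
    intro h
    have := hd z h hxz.symm hyz.symm
    omega
  have hev := even_sum_deg hE (hW.inter hW')
  have hxx : x ∈ W ∩ W' := Finset.mem_inter.2 ⟨hxW, hxW'⟩
  rw [← Finset.add_sum_erase _ _ hxx, hx] at hev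
  have h3 : ∑ v ∈ (W ∩ W').erase x, deg E v = ∑ v ∈ (W ∩ W').erase x, 2 := by
    apply Finset.sum_congr rfl
    intro v hv
    rw [Finset.mem_erase, Finset.mem_inter] at hv
    apply hd v hv.2.1 hv.1
    rintro rfl
    exact hyW' hv.2.2
  rw [h3, Finset.sum_const, smul_eq_mul] at hev
  rcases hev with ⟨r, hr⟩
  omega

omit [Fintype V] in
lemma deg_insert {E : Finset (Sym2 V)} {e : Sym2 V} (he : e ∉ E) (v : V) :
    deg (insert e E) v = deg E v + (if v ∈ e then 1 else 0) := by
  unfold deg
  rw [Finset.filter_insert]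
  split_ifs with h
  · rw [Finset.card_insert_of_notMem]
    intro h'
    exact he (Finset.mem_filter.1 h').1
  · rfl

omit [Fintype V] in
lemma deg_union {E E' : Finset (Sym2 V)} (h : Disjoint E E') (v : V) :
    deg (E ∪ E') v = deg E v + deg E' v := by
  unfold deg
  rw [Finset.filter_union, Finset.card_union_of_disjoint]
  exact Finset.disjoint_filter_filter h

omit [Fintype V] in
lemma deg_pos_of_mem {E : Finset (Sym2 V)} {e : Sym2 V} (he : e ∈ E) {v : V} (hv : v ∈ e) :
    1 ≤ deg E v := Finset.card_pos.2 ⟨e, Finset.mem_filter.2 ⟨he, hv⟩⟩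

omit [Fintype V] in
lemma eq_of_deg_one {E : Finset (Sym2 V)} {e e' : Sym2 V} {v : V} (h : deg E v = 1)
    (he : e ∈ E) (hv : v ∈ e) (he' : e' ∈ E) (hv' : v ∈ e') : e = e' :=
  Finset.card_le_one.1 h.le e (Finset.mem_filter.2 ⟨he, hv⟩) e' (Finset.mem_filter.2 ⟨he', hv'⟩)

omit [Fintype V] in
/-- Adding an edge between two vertices of degree at most one which are not the two ends of one
path gives a linear forest. -/
lemma Lin.add {E : Finset (Sym2 V)} (hE : Lin E) {x y : V} (hxy : x ≠ y) (hx : deg E x ≤ 1)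
    (hy : deg E y ≤ 1) (hJ : ¬ Joined E x y) : s(x, y) ∉ E ∧ Lin (insert s(x, y) E) := by
  have hnot : s(x, y) ∉ E := by
    intro h
    apply hJ
    have hx1 : deg E x = 1 := le_antisymm hx (deg_pos_of_mem h (Sym2.mem_mk_left x y))
    have hy1 : deg E y = 1 := le_antisymm hy (deg_pos_of_mem h (Sym2.mem_mk_right x y))
    refine ⟨hx1, hy1, {x, y}, ?_, by simp, by simp, ?_⟩
    · intro e he v hv hvW w hw
      have : e = s(x, y) := by
        simp only [Finset.mem_insert, Finset.mem_singleton] at hvW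
        rcases hvW with rfl | rfl
        · exact eq_of_deg_one hx1 he hv h (Sym2.mem_mk_left _ _)
        · exact eq_of_deg_one hy1 he hv h (Sym2.mem_mk_right _ _)
      subst this
      simpa using hw
    · intro v hv h1 h2
      simp only [Finset.mem_insert, Finset.mem_singleton] at hv
      tauto
  refine ⟨hnot, ⟨?_, ?_, ?_⟩⟩
  · intro e he
    rw [Finset.mem_insert] at he
    rcases he with rfl | he
    · simpa using hxy
    · exact hE.nodiag e he
  · intro v
    rw [deg_insert hnot]
    split_ifs with h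
    · rw [Sym2.mem_iff] at h
      rcases h with rfl | rfl <;> omega
    · have := hE.deg_le v; omega
  · intro W hW hd
    have hWE : Closed E W := fun e he => hW e (Finset.mem_insert_of_mem he)
    by_cases hxW : x ∈ W
    · exfalso
      have hyW : y ∈ W := hW s(x, y) (Finset.mem_insert_self _ _) x (Sym2.mem_mk_left _ _) hxW y
        (Sym2.mem_mk_right _ _)
      have h1 := hd x hxW
      have h2 := hd y hyW
      rw [deg_insert hnot, if_pos (Sym2.mem_mk_left _ _)] at h1
      rw [deg_insert hnot, if_pos (Sym2.mem_mk_right _ _)] at h2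
      apply hJ
      refine ⟨by omega, by omega, W, hWE, hxW, hyW, ?_⟩
      intro v hv h3 h4
      have := hd v hv
      rw [deg_insert hnot, if_neg (by rw [Sym2.mem_iff]; tauto)] at this
      simpa using this
    · have hyW : y ∉ W := fun h => hxW (hW s(x, y) (Finset.mem_insert_self _ _) y
        (Sym2.mem_mk_right _ _) h x (Sym2.mem_mk_left _ _))
      apply hE.acyc W hWE
      intro v hv
      have := hd v hv
      rw [deg_insert hnot, if_neg] at this
      · simpa using this
      · rw [Sym2.mem_iff]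
        rintro (rfl | rfl)
        · exact hxW hv
        · exact hyW hv

omit [Fintype V] in
/-- Among three ends, some pair is not joined in either of two linear forests. -/
lemma exists_pair {E E' : Finset (Sym2 V)} (hE : ∀ e ∈ E, ¬ e.IsDiag) (hE' : ∀ e ∈ E', ¬ e.IsDiag)
    {S : Finset V} (hS : 3 ≤ S.card) :
    ∃ x ∈ S, ∃ y ∈ S, x ≠ y ∧ ¬ Joined E x y ∧ ¬ Joined E' x y := by
  obtain ⟨x, hx, y, hy, z, hz, hxy, hxz, hyz⟩ := Finset.two_lt_card.1 hS
  by_contra hcon
  push Not at hcon
  have h1 := hcon x hx y hy hxy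
  have h2 := hcon x hx z hz hxz
  have h3 := hcon y hy z hz hyz
  have key : ∀ {F : Finset (Sym2 V)}, (∀ e ∈ F, ¬ e.IsDiag) →
      ¬ (Joined F x y ∧ Joined F x z) ∧ ¬ (Joined F x y ∧ Joined F y z) ∧
      ¬ (Joined F x z ∧ Joined F y z) := by
    intro F hF
    refine ⟨fun h => joined_unique hF hxy hxz hyz h.1 h.2,
      fun h => joined_unique hF hxy.symm hyz hxz h.1.symm h.2,
      fun h => joined_unique hF hxz.symm hyz.symm hxy h.1.symm h.2.symm⟩
  have k1 := key hE
  have k2 := key hE'
  tauto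

end Pool.Agent.H240P
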