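import Pool.Agent.H240P.Select

/-!
# Path odd-covers of Eulerian graphs of maximum degree four (helper240, MP_4dfdc8_co)
-/

set_option autoImplicit false

namespace Pool.Agent.H240P

variable {V : Type*} [Fintype V] [DecidableEq V]

open Equiv.Perm

lemma sel_final {σ τ : Equiv.Perm V} (P2 : ∀ v, σ v ≠ v → σ v ≠ τ v)
    (P3 : ∀ v w, v ≠ w → (σ v = w ∨ τ v = w) → ¬ (σ w = v ∨ τ w = v)) {v : V} (hσ : σ v ≠ v)
    (hτ : τ v ≠ v) :
    ∃ R : Finset V, Reps σ σ.support R ∧ ∃ y₁ y₀, τ.SameCycle v y₁ ∧ τ.SameCycle v y₀ ∧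
      u σ R y₁ + u σ R (τ y₁) = 1 ∧ u σ R y₀ + u σ R (τ y₀) = 0 := by
  have h2σ : ∀ v, σ v ≠ v → σ (σ v) ≠ v := fun v hv h => P3 v (σ v) hv.symm (Or.inl rfl) (Or.inl h)
  have h2τ : ∀ v, τ v ≠ v → τ (τ v) ≠ v := fun v hv h => P3 v (τ v) hv.symm (Or.inr rfl) (Or.inr h)
  have hxy : τ v ≠ τ (τ v) := fun h => hτ (τ.injective h.symm)
  have hvy : v ≠ τ (τ v) := (h2τ v hτ).symm
  by_cases hcase : ¬ σ.SameCycle (τ v) (τ (τ v)) ∨ (σ.SameCycle v (τ v) ∧ σ.SameCycle v (τ (τ v)))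
  · have hp : ∃ p, (p = v ∨ σ p = v) ∧ p ≠ τ v ∧ p ≠ τ (τ v) ∧ σ p ≠ τ v ∧ σ p ≠ τ (τ v) := by
      by_cases h : σ v = τ (τ v)
      · refine ⟨σ.symm v, Or.inr (by simp), ?_, ?_, by simpa using hτ.symm, by simpa using hvy⟩
        · intro h3
          apply P3 v (τ v) hτ.symm (Or.inr rfl)
          left
          rw [← h3]; simp
        · intro h3
          apply h2σ v hσ
          rw [h, ← h3]; simp
      · exact ⟨v, Or.inl rfl, hτ.symm, hvy, P2 v hσ, h⟩
    obtain ⟨R, hR, h3, h4, h5⟩ := select h2σ hσ hp hxy hcase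
    refine ⟨R, hR, v, τ v, SameCycle.refl _ _, by rw [sameCycle_apply_right], ?_, ?_⟩ <;> omega
  · push Not at hcase
    obtain ⟨hc1, hc2⟩ := hcase
    have hvx : ¬ σ.SameCycle v (τ v) := fun h => hc2 h (h.trans hc1)
    have hσy : σ (τ (τ v)) ≠ τ (τ v) := by
      intro h
      exact hxy ((SameCycle.eq_of_right hc1) h)
    have hp : ∃ p, (p = τ (τ v) ∨ σ p = τ (τ v)) ∧ p ≠ v ∧ p ≠ τ v ∧ σ p ≠ v ∧ σ p ≠ τ v := by
      refine ⟨τ (τ v), Or.inl rfl, hvy.symm, hxy.symm, ?_, ?_⟩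
      · intro h
        apply hvx
        have : σ.SameCycle (τ v) v := by
          rw [← h, sameCycle_apply_right, h]
          exact hc1
        exact this.symm
      · intro h
        exact P3 (τ v) (τ (τ v)) hxy (Or.inr rfl) (Or.inl h)
    obtain ⟨R, hR, h3, h4, h5⟩ := select h2σ hσy hp hτ.symm (Or.inl hvx)
    refine ⟨R, hR, τ v, v, by rw [sameCycle_apply_right], SameCycle.refl _ _, ?_, ?_⟩ <;> omega

/-- Three linear forests with the parity condition. -/
theorem exists_forests {σ τ : Equiv.Perm V} (P2 : ∀ v, σ v ≠ v → σ v ≠ τ v)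
    (P3 : ∀ v w, v ≠ w → (σ v = w ∨ τ v = w) → ¬ (σ w = v ∨ τ w = v)) {v : V} (hσ : σ v ≠ v)
    (hτ : τ v ≠ v) :
    ∃ E₁ E₂ E₃ : Finset (Sym2 V), Lin E₁ ∧ Lin E₂ ∧ Lin E₃ ∧
      (∀ w, Even (deg E₁ w + deg E₂ w + deg E₃ w)) ∧ Odd (S E₁ E₂).card ∧
      ∀ e, ind e E₁ + ind e E₂ + ind e E₃ = ind e (edg σ σ.support) + ind e (edg τ τ.support) := by
  have h2σ : ∀ v, σ v ≠ v → σ (σ v) ≠ v := fun v hv h => P3 v (σ v) hv.symm (Or.inl rfl) (Or.inl h)
  have h2τ : ∀ v, τ v ≠ v → τ (τ v) ≠ v := fun v hv h => P3 v (τ v) hv.symm (Or.inr rfl) (Or.inr h)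
  obtain ⟨R, hR, y₁, y₀, hy1, hy0, hu1, hu0⟩ := sel_final P2 P3 hσ hτ
  have hRn : ∀ r ∈ R, σ r ≠ r := fun r hr => Equiv.Perm.mem_support.1 (hR.sub hr)
  have hFdeg : ∀ w, deg (edg σ R) w = u σ R w := fun w => deg_edg h2σ hRn w
  have hFdeg1 : ∀ w, deg (edg σ R) w ≤ 1 := fun w => by rw [hFdeg]; exact u_le_one hR w
  have hF : Lin (edg σ R) := by
    refine lin_of_le_one ?_ hFdeg1
    intro e he
    obtain ⟨r, hr, rfl⟩ := Finset.mem_image.1 he
    simpa using (hRn r hr).symm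
  have hcross : ∀ r w, σ r ≠ r → τ w ≠ w → s(r, σ r) ≠ s(w, τ w) := by
    intro r w hr hw h
    rw [Sym2.eq_iff] at h
    rcases h with ⟨rfl, h⟩ | ⟨h3, h4⟩
    · exact P2 r hr h
    · exact P3 w r (by rw [h3]; exact hw.symm) (Or.inr h3.symm) (Or.inl h4)
  have hdis : ∀ w, τ w ≠ w → s(w, τ w) ∉ edg σ R := by
    intro w hw h
    obtain ⟨r, hr, hrw⟩ := Finset.mem_image.1 h
    exact hcross r w (hRn r hr) hw hrw
  set O : Finset V := Finset.univ.filter (fun w => τ.SameCycle v w) with hO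
  have hmemO : ∀ w, w ∈ O ↔ τ.SameCycle v w := fun w => by simp [hO]
  have hOs : O ⊆ τ.support := by
    intro w hw
    rw [hmemO] at hw
    rw [Equiv.Perm.mem_support]
    intro h
    exact hτ ((hw.apply_eq_self_iff).2 h)
  obtain ⟨R₁, hR₁, hL₁⟩ := greedy h2τ hF hFdeg1 hdis _ (τ.support \ O) rfl
    (fun w hw => Equiv.Perm.mem_support.1 (Finset.mem_sdiff.1 hw).1) (by
    intro w hw z hwz
    rw [Finset.mem_sdiff, hmemO] at hw ⊢
    refine ⟨?_, fun h => hw.2 (h.trans hwz.symm)⟩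
    rw [Equiv.Perm.mem_support] at hw ⊢
    intro h
    exact hw.1 ((hwz.apply_eq_self_iff).2 h))
  have hR₁n : ∀ r ∈ R₁, τ r ≠ r := fun r hr =>
    Equiv.Perm.mem_support.1 (Finset.mem_sdiff.1 (hR₁.sub hr)).1
  have hzZ : ∀ w ∈ τ.support \ O, ¬ τ.SameCycle v w := by
    intro w hw h
    rw [Finset.mem_sdiff, hmemO] at hw
    exact hw.2 h
  have hDis : ∀ X : Finset V, (∀ r ∈ X, τ r ≠ r) → Disjoint (edg σ R) (edg τ X) := by
    intro X hX
    rw [Finset.disjoint_left]
    intro e he he'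
    obtain ⟨w, hw, rfl⟩ := Finset.mem_image.1 he'
    exact hdis w (hX w hw) he
  have hu_O : ∀ w, τ.SameCycle v w → u τ R₁ w = 0 := by
    intro w hw
    have h3 : w ∉ R₁ := fun h => hzZ w (hR₁.sub h) hw
    have h4 : τ.symm w ∉ R₁ := fun h => hzZ _ (hR₁.sub h) (by rwa [sameCycle_symm_apply_right])
    simp [u, h3, h4]
  -- the choice of the last edge
  set K : ℕ := ∑ w, u σ R w * u τ R₁ w with hK
  obtain ⟨y, hy, hyu, hyK⟩ : ∃ y, τ.SameCycle v y ∧ (u σ R y = 0 ∨ u σ R (τ y) = 0) ∧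
      Odd (K + (u σ R y + u σ R (τ y))) := by
    rcases Nat.even_or_odd K with h | h
    · exact ⟨y₁, hy1, by omega, by rw [hu1]; exact h.add_one⟩
    · exact ⟨y₀, hy0, by omega, by rw [hu0]; exact h⟩
  have hJ : ¬ Joined (edg σ R ∪ edg τ R₁) y (τ y) := by
    rintro ⟨h3, h4, -⟩
    rw [deg_union (hDis R₁ hR₁n), hFdeg, deg_edg h2τ hR₁n, hu_O y hy] at h3
    rw [deg_union (hDis R₁ hR₁n), hFdeg, deg_edg h2τ hR₁n,
      hu_O (τ y) (by rwa [sameCycle_apply_right])] at h4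
    omega
  obtain ⟨hL, hR'⟩ := extend h2τ hFdeg1 hdis
    (fun w hw => Equiv.Perm.mem_support.1 (Finset.mem_sdiff.1 hw).1) hR₁ hL₁ hzZ hτ hy hJ
  rw [← hO, Finset.sdiff_union_of_subset hOs] at hR'
  have hyR : y ∉ R₁ := fun h => hzZ y (hR₁.sub h) hy
  have hR'n : ∀ r ∈ insert y R₁, τ r ≠ r := fun r hr => Equiv.Perm.mem_support.1 (hR'.sub hr)
  obtain ⟨hL1, hs1⟩ := lin_rest h2σ hR
  obtain ⟨hL2, hs2⟩ := lin_rest h2τ hR'
  have hdeg3 : ∀ w, deg (edg σ R ∪ edg τ (insert y R₁)) w = u σ R w + u τ (insert y R₁) w := by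
    intro w
    rw [deg_union (hDis _ hR'n), hFdeg, deg_edg h2τ hR'n]
  refine ⟨edg σ (σ.support \ R), edg τ (τ.support \ insert y R₁),
    edg σ R ∪ edg τ (insert y R₁), hL1, hL2, hL, ?_, ?_, ?_⟩
  · intro w
    rw [hdeg3, Nat.even_iff]
    have h3 := hs1 w
    have h4 := hs2 w
    omega
  · have hcard : (S (edg σ (σ.support \ R)) (edg τ (τ.support \ insert y R₁))).card =
        ∑ w, u σ R w * u τ (insert y R₁) w := by
      unfold S
      rw [Finset.card_filter]
      apply Finset.sum_congr rfl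
      intro w _
      have h3 := hs1 w
      have h4 := hs2 w
      have h5 := u_le_one hR w
      have h6 := u_le_one hR' w
      have h7 : u σ R w = 0 ∨ u σ R w = 1 := by omega
      have h8 : u τ (insert y R₁) w = 0 ∨ u τ (insert y R₁) w = 1 := by omega
      rcases h7 with h7 | h7 <;> rcases h8 with h8 | h8
      · rw [h7, h8, if_neg (by omega)]
      · rw [h7, h8, if_neg (by omega)]
      · rw [h7, h8, if_neg (by omega)]
      · rw [h7, h8, if_pos (by omega)]
    have hins : ∀ w, u τ (insert y R₁) w =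
        u τ R₁ w + ((if w = y then 1 else 0) + (if w = τ y then 1 else 0)) := by
      intro w
      unfold u
      have h3 : (if w ∈ insert y R₁ then 1 else 0) =
          (if w ∈ R₁ then 1 else 0) + (if w = y then 1 else 0) := by
        by_cases h : w = y
        · subst h; simp [hyR]
        · simp [h]
      have h4 : (if τ.symm w ∈ insert y R₁ then 1 else 0) =
          (if τ.symm w ∈ R₁ then 1 else 0) + (if w = τ y then 1 else 0) := by
        by_cases h : w = τ y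
        · subst h; simp [hyR]
        · have : τ.symm w ≠ y := by
            rintro rfl
            exact h (by simp)
          simp [h, this]
      rw [h3, h4]
      ring
    have hsum : ∑ w, u σ R w * u τ (insert y R₁) w = K + (u σ R y + u σ R (τ y)) := by
      rw [hK]
      simp only [hins, mul_add, Finset.sum_add_distrib, mul_ite, mul_one, mul_zero,
        Finset.sum_ite_eq', Finset.mem_univ, if_true]
    rw [hcard, hsum]
    exact hyK
  · have key : ∀ (ρ : Equiv.Perm V) (X : Finset V), (∀ v, ρ v ≠ v → ρ (ρ v) ≠ v) →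
        X ⊆ ρ.support → ∀ e, ind e (edg ρ ρ.support) = ind e (edg ρ (ρ.support \ X)) +
          ind e (edg ρ X) := by
      intro ρ X h2 hX e
      have h3 : edg ρ ρ.support = edg ρ (ρ.support \ X) ∪ edg ρ X := by
        unfold edg
        rw [← Finset.image_union, Finset.sdiff_union_of_subset hX]
      have h4 : ¬ (e ∈ edg ρ (ρ.support \ X) ∧ e ∈ edg ρ X) := by
        rintro ⟨h5, h6⟩
        obtain ⟨a, ha, rfl⟩ := Finset.mem_image.1 h5
        obtain ⟨b, hb, hba⟩ := Finset.mem_image.1 h6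
        rw [Finset.mem_sdiff] at ha
        have := edge_inj h2 (Equiv.Perm.mem_support.1 ha.1) hba.symm
        exact ha.2 (this ▸ hb)
      unfold ind
      rw [h3]
      by_cases h5 : e ∈ edg ρ (ρ.support \ X) <;> by_cases h6 : e ∈ edg ρ X
      · exact absurd ⟨h5, h6⟩ h4
      · simp only [Finset.mem_union, h5, h6, or_false, if_true, if_false, add_zero]
      · simp only [Finset.mem_union, h5, h6, false_or, if_true, if_false, zero_add]
      · simp only [Finset.mem_union, h5, h6, or_false, if_false, add_zero]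
    intro e
    rw [key σ R h2σ hR.sub e, key τ (insert y R₁) h2τ hR'.sub e]
    have h3 : ind e (edg σ R ∪ edg τ (insert y R₁)) =
        ind e (edg σ R) + ind e (edg τ (insert y R₁)) := by
      have h4 : e ∈ edg σ R → e ∉ edg τ (insert y R₁) :=
        fun h => Finset.disjoint_left.1 (hDis _ hR'n) h
      unfold ind
      by_cases h5 : e ∈ edg σ R
      · simp only [Finset.mem_union, h5, h4 h5, or_false, if_true, if_false, add_zero]
      · simp only [Finset.mem_union, h5, false_or, if_false, zero_add]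
    rw [h3]
    ring

/-- The main theorem: three paths. -/
theorem main (G : SimpleGraph V) [DecidableRel G.Adj] (heven : ∀ v, Even (G.degree v))
    (hmax : ∀ v, G.degree v ≤ 4) {v : V} (hv : G.degree v = 4) :
    ∃ P₁ P₂ P₃ : Finset (Sym2 V), IsPathSet P₁ ∧ IsPathSet P₂ ∧ IsPathSet P₃ ∧
      ∀ e, e ∈ G.edgeSet ↔ Odd (ind e P₁ + ind e P₂ + ind e P₃) := by
  obtain ⟨σ, τ, P1, P2, P3⟩ := exists_perms G heven hmax
  have key : ∀ ρ π : Equiv.Perm V, (∀ v w, v ≠ w → (G.Adj v w ↔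
      (ρ v = w ∨ π v = w) ∨ (ρ w = v ∨ π w = v))) → ρ v ≠ v := by
    intro ρ π hP h
    have hsub : G.neighborFinset v ⊆ {π v, π.symm v} := by
      intro w hw
      rw [SimpleGraph.mem_neighborFinset] at hw
      have hvw := hw.ne
      rw [hP v w hvw] at hw
      simp only [Finset.mem_insert, Finset.mem_singleton]
      rcases hw with (h3 | h3) | (h3 | h3)
      · exact absurd (h.symm.trans h3) hvw
      · exact Or.inl h3.symm
      · exact absurd (ρ.injective (h.trans h3.symm)) hvw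
      · right
        rw [Equiv.eq_symm_apply]; exact h3
    have h3 := Finset.card_le_card hsub
    rw [SimpleGraph.card_neighborFinset_eq_degree, hv] at h3
    have h4 : ({π v, π.symm v} : Finset V).card ≤ 2 := Finset.card_le_two
    omega
  have hσ := key σ τ P1
  have hτ := key τ σ (by
    intro a b hab
    rw [P1 a b hab]
    tauto)
  obtain ⟨E₁, E₂, E₃, h1, h2, h3, hpar, hodd, hind⟩ := exists_forests P2 P3 hσ hτ
  obtain ⟨Q₁, Q₂, Q₃, hQ1, hQ2, hQ3, hQ⟩ := merge h1 h2 h3 hpar hodd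
  refine ⟨Q₁, Q₂, Q₃, hQ1, hQ2, hQ3, fun e => ?_⟩
  rw [Nat.odd_iff, hQ e, hind e]
  induction e with
  | _ a b =>
    rw [SimpleGraph.mem_edgeSet]
    have hnot : ¬ (s(a, b) ∈ edg σ σ.support ∧ s(a, b) ∈ edg τ τ.support) := by
      rintro ⟨h4, h5⟩
      obtain ⟨r, hr, hr'⟩ := Finset.mem_image.1 h4
      obtain ⟨w, hw, hw'⟩ := Finset.mem_image.1 h5
      rw [Equiv.Perm.mem_support] at hr hw
      have h := hr'.trans hw'.symm
      rw [Sym2.eq_iff] at h
      rcases h with ⟨rfl, h⟩ | ⟨h6, h7⟩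
      · exact P2 r hr h
      · exact P3 w r (by rw [h6]; exact hw.symm) (Or.inr h6.symm) (Or.inl h7)
    have hmem : ∀ ρ : Equiv.Perm V, s(a, b) ∈ edg ρ ρ.support ↔ a ≠ b ∧ (ρ a = b ∨ ρ b = a) := by
      intro ρ
      unfold edg
      rw [Finset.mem_image]
      constructor
      · rintro ⟨r, hr, hr'⟩
        rw [Equiv.Perm.mem_support] at hr
        rw [Sym2.eq_iff] at hr'
        rcases hr' with ⟨rfl, rfl⟩ | ⟨rfl, rfl⟩
        · exact ⟨hr.symm, Or.inl rfl⟩
        · exact ⟨hr, Or.inr rfl⟩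
      · rintro ⟨hab, h | h⟩
        · refine ⟨a, ?_, by rw [h]⟩
          rw [Equiv.Perm.mem_support, h]; exact hab.symm
        · refine ⟨b, ?_, by rw [h, Sym2.eq_swap]⟩
          rw [Equiv.Perm.mem_support, h]; exact hab
    have hiff : G.Adj a b ↔ s(a, b) ∈ edg σ σ.support ∨ s(a, b) ∈ edg τ τ.support := by
      rw [hmem, hmem]
      constructor
      · intro h
        have hab := h.ne
        rw [P1 a b hab] at h
        tauto
      · rintro (⟨hab, h⟩ | ⟨hab, h⟩) <;> rw [P1 a b hab] <;> tauto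
    rw [hiff]
    unfold ind
    by_cases h4 : s(a, b) ∈ edg σ σ.support <;> by_cases h5 : s(a, b) ∈ edg τ τ.support
    · exact absurd ⟨h4, h5⟩ hnot
    · simp [h4, h5]
    · simp [h4, h5]
    · simp [h4, h5]

end Pool.Agent.H240P
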