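import Pool.Agent.H240P.Path

/-!
# Merging three linear forests to three paths (helper240, MP_4dfdc8_co)
-/

set_option autoImplicit false

namespace Pool.Agent.H240P

variable {V : Type*} [Fintype V] [DecidableEq V]

/-- The common ends of two linear forests. -/
def S (E E' : Finset (Sym2 V)) : Finset V :=
  Finset.univ.filter (fun v => deg E v = 1 ∧ deg E' v = 1)

/-- Indicator. -/
def ind (e : Sym2 V) (E : Finset (Sym2 V)) : ℕ := if e ∈ E then 1 else 0

lemma mem_S {E E' : Finset (Sym2 V)} {v : V} : v ∈ S E E' ↔ deg E v = 1 ∧ deg E' v = 1 := by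
  simp [S]

lemma S_comm (E E' : Finset (Sym2 V)) : S E E' = S E' E := by
  ext v; rw [mem_S, mem_S]; tauto

omit [Fintype V] in
lemma ind_insert {E : Finset (Sym2 V)} {e₀ : Sym2 V} (h : e₀ ∉ E) (e : Sym2 V) :
    ind e (insert e₀ E) = ind e E + (if e = e₀ then 1 else 0) := by
  unfold ind
  by_cases h1 : e = e₀
  · subst h1
    simp [h]
  · simp [h1]

lemma reduce (n : ℕ) : ∀ E₁ E₂ : Finset (Sym2 V), Lin E₁ → Lin E₂ →
    (S E₁ E₂).card = 2 * n + 1 →
    ∃ E₁' E₂' : Finset (Sym2 V), Lin E₁' ∧ Lin E₂' ∧ (S E₁' E₂').card = 1 ∧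
      (∀ v, v ∉ S E₁ E₂ → deg E₁' v = deg E₁ v ∧ deg E₂' v = deg E₂ v) ∧
      (∀ v ∈ S E₁ E₂, deg E₁' v = deg E₂' v) ∧
      (∀ e, (ind e E₁' + ind e E₂') % 2 = (ind e E₁ + ind e E₂) % 2) := by
  induction n with
  | zero =>
    intro E₁ E₂ h1 h2 hc
    refine ⟨E₁, E₂, h1, h2, by simpa using hc, fun v _ => ⟨rfl, rfl⟩, fun v hv => ?_, fun _ => rfl⟩
    rw [mem_S] at hv
    omega
  | succ n ih =>
    intro E₁ E₂ h1 h2 hc
    obtain ⟨x, hx, y, hy, hxy, hJ1, hJ2⟩ := exists_pair h1.nodiag h2.nodiag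
      (show 3 ≤ (S E₁ E₂).card by omega)
    have hx' := mem_S.1 hx
    have hy' := mem_S.1 hy
    obtain ⟨hn1, hL1⟩ := h1.add hxy hx'.1.le hy'.1.le hJ1
    obtain ⟨hn2, hL2⟩ := h2.add hxy hx'.2.le hy'.2.le hJ2
    have hS : S (insert s(x, y) E₁) (insert s(x, y) E₂) = ((S E₁ E₂).erase x).erase y := by
      ext v
      rw [mem_S, Finset.mem_erase, Finset.mem_erase, mem_S, deg_insert hn1, deg_insert hn2]
      by_cases hvx : v = x
      · subst hvx
        simp [hx']
      by_cases hvy : v = y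
      · subst hvy
        simp [hy']
      have : v ∉ s(x, y) := by rw [Sym2.mem_iff]; tauto
      simp [this, hvx, hvy]
    have hcard : (S (insert s(x, y) E₁) (insert s(x, y) E₂)).card = 2 * n + 1 := by
      rw [hS, Finset.card_erase_of_mem (Finset.mem_erase.2 ⟨hxy.symm, hy⟩),
        Finset.card_erase_of_mem hx, hc]
      omega
    obtain ⟨F₁, F₂, hF1, hF2, hc', hd, hd', hi⟩ := ih _ _ hL1 hL2 hcard
    refine ⟨F₁, F₂, hF1, hF2, hc', ?_, ?_, ?_⟩
    · intro v hv
      have hvx : v ≠ x := by rintro rfl; exact hv hx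
      have hvy : v ≠ y := by rintro rfl; exact hv hy
      have h3 : v ∉ s(x, y) := by rw [Sym2.mem_iff]; tauto
      have h4 := hd v (by rw [hS]; simp [hv])
      rw [deg_insert hn1, deg_insert hn2, if_neg h3] at h4
      exact h4
    · intro v hv
      by_cases h3 : v ∈ S (insert s(x, y) E₁) (insert s(x, y) E₂)
      · exact hd' v h3
      · have h4 := hd v h3
        rw [h4.1, h4.2, deg_insert hn1, deg_insert hn2, (mem_S.1 hv).1, (mem_S.1 hv).2]
    · intro e
      rw [hi e, ind_insert hn1, ind_insert hn2]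
      omega

lemma step {E₁ E₂ E₃ : Finset (Sym2 V)} (h1 : Lin E₁) (h2 : Lin E₂)
    (hpar : ∀ v, Even (deg E₁ v + deg E₂ v + deg E₃ v)) (hodd : Odd (S E₁ E₂).card) :
    ∃ E₁' E₂' : Finset (Sym2 V), Lin E₁' ∧ Lin E₂' ∧ (S E₁' E₂').card = 1 ∧
      S E₁' E₃ = S E₁ E₃ ∧ S E₂' E₃ = S E₂ E₃ ∧
      (∀ v, Even (deg E₁' v + deg E₂' v + deg E₃ v)) ∧
      (∀ e, (ind e E₁' + ind e E₂') % 2 = (ind e E₁ + ind e E₂) % 2) := by
  obtain ⟨n, hn⟩ := hodd
  obtain ⟨F₁, F₂, hF1, hF2, hc, hd, hd', hi⟩ := reduce n E₁ E₂ h1 h2 hn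
  have key : ∀ v ∈ S E₁ E₂, Even (deg E₃ v) := by
    intro v hv
    have h3 := hpar v
    rw [(mem_S.1 hv).1, (mem_S.1 hv).2] at h3
    rw [Nat.even_iff] at h3 ⊢
    omega
  refine ⟨F₁, F₂, hF1, hF2, hc, ?_, ?_, ?_, hi⟩
  · ext v
    rw [mem_S, mem_S]
    by_cases hv : v ∈ S E₁ E₂
    · have := key v hv
      rw [Nat.even_iff] at this
      constructor <;> (rintro ⟨-, h⟩; omega)
    · rw [(hd v hv).1]
  · ext v
    rw [mem_S, mem_S]
    by_cases hv : v ∈ S E₁ E₂
    · have := key v hv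
      rw [Nat.even_iff] at this
      constructor <;> (rintro ⟨-, h⟩; omega)
    · rw [(hd v hv).2]
  · intro v
    by_cases hv : v ∈ S E₁ E₂
    · have h3 := key v hv
      have h4 := hd' v hv
      rw [Nat.even_iff] at h3 ⊢
      omega
    · rw [(hd v hv).1, (hd v hv).2]
      exact hpar v

/-- The number of ends of a linear forest is even. -/
lemma even_ends {E : Finset (Sym2 V)} (hE : Lin E) :
    Even (Finset.univ.filter (fun v => deg E v = 1)).card := by
  have h1 := even_sum_deg hE.nodiag (W := Finset.univ) (fun _ _ _ _ _ w _ => Finset.mem_univ w)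
  rw [Nat.even_iff, Finset.sum_nat_mod] at h1
  have h2 : ∑ v : V, deg E v % 2 = (Finset.univ.filter (fun v => deg E v = 1)).card := by
    rw [Finset.card_filter]
    apply Finset.sum_congr rfl
    intro v _
    have := hE.deg_le v
    interval_cases deg E v <;> rfl
  rw [h2] at h1
  rw [Nat.even_iff]
  exact h1

lemma odd_of_odd {E₁ E₂ E₃ : Finset (Sym2 V)} (h1 : Lin E₁) (h2 : Lin E₂) (h3 : Lin E₃)
    (hpar : ∀ v, Even (deg E₁ v + deg E₂ v + deg E₃ v)) (hodd : Odd (S E₁ E₂).card) :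
    Odd (S E₁ E₃).card := by
  have h := even_ends h1
  have hU : Finset.univ.filter (fun v => deg E₁ v = 1) = S E₁ E₂ ∪ S E₁ E₃ := by
    ext v
    rw [Finset.mem_union, mem_S, mem_S]
    simp only [Finset.mem_filter, Finset.mem_univ, true_and]
    have := hpar v
    have h2' := h2.deg_le v
    have h3' := h3.deg_le v
    rw [Nat.even_iff] at this
    constructor
    · intro h4
      rw [h4] at this
      omega
    · tauto
  have hD : Disjoint (S E₁ E₂) (S E₁ E₃) := by
    rw [Finset.disjoint_left]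
    intro v hv hv'
    rw [mem_S] at hv hv'
    have := hpar v
    rw [hv.1, hv.2, hv'.2] at this
    exact absurd this (by decide)
  rw [hU, Finset.card_union_of_disjoint hD] at h
  rw [Nat.even_iff] at h
  rw [Nat.odd_iff] at hodd ⊢
  omega

lemma isPath_of_one {E₁ E₂ E₃ : Finset (Sym2 V)} (h1 : Lin E₁) (h2 : Lin E₂) (h3 : Lin E₃)
    (hpar : ∀ v, Even (deg E₁ v + deg E₂ v + deg E₃ v)) (h12 : (S E₁ E₂).card = 1)
    (h13 : (S E₁ E₃).card = 1) : IsPathSet E₁ := by
  obtain ⟨a, ha⟩ := Finset.card_eq_one.1 h12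
  obtain ⟨b, hb⟩ := Finset.card_eq_one.1 h13
  have ha' : ∀ v, deg E₁ v = 1 ∧ deg E₂ v = 1 ↔ v = a := by
    intro v
    rw [← mem_S, ha, Finset.mem_singleton]
  have hb' : ∀ v, deg E₁ v = 1 ∧ deg E₃ v = 1 ↔ v = b := by
    intro v
    rw [← mem_S, hb, Finset.mem_singleton]
  apply exists_path h1 (a := a) (b := b)
  · rintro rfl
    have h4 := (ha' a).2 rfl
    have h5 := (hb' a).2 rfl
    have := hpar a
    rw [h4.1, h4.2, h5.2] at this
    exact absurd this (by decide)
  · intro v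
    rw [← ha' v, ← hb' v]
    have := hpar v
    have h2' := h2.deg_le v
    have h3' := h3.deg_le v
    rw [Nat.even_iff] at this
    constructor
    · intro h4
      rw [h4] at this
      omega
    · tauto

/-- **Merging lemma.** Three linear forests such that every vertex is an end of none or of two of
them and such that the first two have an odd number of common ends can be turned to three paths
with the same symmetric difference. -/
theorem merge {E₁ E₂ E₃ : Finset (Sym2 V)} (h1 : Lin E₁) (h2 : Lin E₂) (h3 : Lin E₃)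
    (hpar : ∀ v, Even (deg E₁ v + deg E₂ v + deg E₃ v)) (hodd : Odd (S E₁ E₂).card) :
    ∃ P₁ P₂ P₃ : Finset (Sym2 V), IsPathSet P₁ ∧ IsPathSet P₂ ∧ IsPathSet P₃ ∧
      ∀ e, (ind e P₁ + ind e P₂ + ind e P₃) % 2 = (ind e E₁ + ind e E₂ + ind e E₃) % 2 := by
  have hodd13 := odd_of_odd h1 h2 h3 hpar hodd
  have hodd23 : Odd (S E₂ E₃).card := by
    apply odd_of_odd h2 h1 h3 (fun v => ?_) (by rwa [S_comm])
    have := hpar v
    rw [add_comm (deg E₂ v)]; exact this
  obtain ⟨F₁, F₂, hF1, hF2, hc12, hS13, hS23, hpar', hi⟩ := step h1 h2 hpar hodd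
  obtain ⟨G₁, G₃, hG1, hG3, hc13, hS12', hS32', hpar'', hi'⟩ := step (E₃ := F₂) hF1 h3
    (fun v => by have := hpar' v; rw [Nat.even_iff] at this ⊢; omega) (by rw [hS13]; exact hodd13)
  obtain ⟨H₂, H₃, hH2, hH3, hc23, hS21, hS31, hpar3, hi''⟩ := step (E₃ := G₁) hF2 hG3
    (fun v => by have := hpar'' v; rw [Nat.even_iff] at this ⊢; omega)
    (by rw [S_comm, hS32', S_comm, hS23]; exact hodd23)
  refine ⟨G₁, H₂, H₃, ?_, ?_, ?_, ?_⟩
  · apply isPath_of_one hG1 hH2 hH3
    · intro v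
      have := hpar3 v
      rw [Nat.even_iff] at this ⊢; omega
    · rw [S_comm, hS21, S_comm, hS12', hc12]
    · rw [S_comm, hS31, S_comm, hc13]
  · apply isPath_of_one hH2 hG1 hH3
    · intro v
      have := hpar3 v
      rw [Nat.even_iff] at this ⊢; omega
    · rw [hS21, S_comm, hS12', hc12]
    · exact hc23
  · apply isPath_of_one hH3 hG1 hH2
    · intro v
      have := hpar3 v
      rw [Nat.even_iff] at this ⊢; omega
    · rw [hS31, S_comm, hc13]
    · rw [S_comm]; exact hc23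
  · intro e
    have e1 := hi e
    have e2 := hi' e
    have e3 := hi'' e
    omega

end Pool.Agent.H240P
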