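import Mathlib

/-!
# Even graphs of maximum degree four as unions of two permutations (helper240, MP_4dfdc8_co)
-/

set_option autoImplicit false

namespace Pool.Agent.H240P

variable {V : Type*} [Fintype V] [DecidableEq V]

/-- The oriented triangle `v → a → b → v`. -/
def tri (v a b : V) (x y : V) : ℤ :=
  (if x = v ∧ y = a then 1 else 0) + (if x = a ∧ y = b then 1 else 0) +
    (if x = b ∧ y = v then 1 else 0) - (if y = v ∧ x = a then 1 else 0) -
    (if y = a ∧ x = b then 1 else 0) - (if y = b ∧ x = v then 1 else 0)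

omit [Fintype V] in
lemma tri_anti (v a b x y : V) : tri v a b x y = - tri v a b y x := by
  unfold tri; ring

lemma tri_sum (v a b x : V) : ∑ y, tri v a b x y = 0 := by
  have h : ∀ p q : V, ∑ y : V, (if x = p ∧ y = q then (1 : ℤ) else 0) = if x = p then 1 else 0 := by
    intro p q
    by_cases hx : x = p <;> simp [hx]
  have h' : ∀ p q : V, ∑ y : V, (if y = p ∧ x = q then (1 : ℤ) else 0) = if x = q then 1 else 0 := by
    intro p q
    by_cases hx : x = q <;> simp [hx]
  unfold tri
  rw [Finset.sum_sub_distrib, Finset.sum_sub_distrib, Finset.sum_sub_distrib,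
    Finset.sum_add_distrib, Finset.sum_add_distrib, h, h, h, h', h', h']
  ring

/-- The support. -/
def supp (g : V → V → ZMod 2) : Finset (V × V) := Finset.univ.filter (fun p => g p.1 p.2 ≠ 0)

lemma flow_aux (n : ℕ) : ∀ g : V → V → ZMod 2, (supp g).card = n → (∀ v w, g v w = g w v) →
    (∀ v, g v v = 0) → (∀ v, ∑ w, g v w = 0) →
    ∃ f : V → V → ℤ, (∀ v w, f v w = - f w v) ∧ (∀ v, ∑ w, f v w = 0) ∧ (∀ v w, |f v w| ≤ 1) ∧
      ∀ v w, ((f v w : ℤ) : ZMod 2) = g v w := by
  induction n using Nat.strong_induction_on with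
  | _ n ih =>
  intro g hn hsymm hdiag hsum
  by_cases h0 : ∀ v w, g v w = 0
  · exact ⟨fun _ _ => 0, by simp, by simp, by simp, by simp [h0]⟩
  push Not at h0
  obtain ⟨v, a, hva⟩ := h0
  have hne : v ≠ a := by rintro rfl; exact hva (hdiag v)
  obtain ⟨b, hba, hvb⟩ : ∃ b, b ≠ a ∧ g v b ≠ 0 := by
    by_contra hcon
    push Not at hcon
    have := hsum v
    rw [Finset.sum_eq_single a (fun b _ hb => hcon b hb) (by simp)] at this
    exact hva this
  have hvbne : v ≠ b := by rintro rfl; exact hvb (hdiag v)
  have h2 : ∀ z : ZMod 2, z ≠ 0 → z = 1 := by decide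
  have hva1 := h2 _ hva
  have hvb1 := h2 _ hvb
  set g' : V → V → ZMod 2 := fun x y => g x y + ((tri v a b x y : ℤ) : ZMod 2) with hg'
  have hz : ∀ z : ZMod 2, -z = z := by decide
  have tva : tri v a b v a = 1 := by simp [tri, hne, hne.symm, hvbne, hba.symm]
  have tab : tri v a b a b = 1 := by simp [tri, hne.symm, hvbne.symm, hba, hba.symm]
  have tbv : tri v a b b v = 1 := by simp [tri, hne, hvbne, hvbne.symm, hba]
  have tav : tri v a b a v = -1 := by rw [tri_anti, tva]
  have tba : tri v a b b a = -1 := by rw [tri_anti, tab]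
  have tvb : tri v a b v b = -1 := by rw [tri_anti, tbv]
  have tout : ∀ x y, tri v a b x y ≠ 0 → (x = v ∧ y = a) ∨ (x = a ∧ y = b) ∨ (x = b ∧ y = v) ∨
      (x = a ∧ y = v) ∨ (x = b ∧ y = a) ∨ (x = v ∧ y = b) := by
    intro x y h
    by_contra hcon
    apply h
    have k1 : ¬ (x = v ∧ y = a) := fun h => hcon (Or.inl h)
    have k2 : ¬ (x = a ∧ y = b) := fun h => hcon (Or.inr (Or.inl h))
    have k3 : ¬ (x = b ∧ y = v) := fun h => hcon (Or.inr (Or.inr (Or.inl h)))
    have k4 : ¬ (y = v ∧ x = a) := fun h => hcon (Or.inr (Or.inr (Or.inr (Or.inl ⟨h.2, h.1⟩))))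
    have k5 : ¬ (y = a ∧ x = b) :=
      fun h => hcon (Or.inr (Or.inr (Or.inr (Or.inr (Or.inl ⟨h.2, h.1⟩)))))
    have k6 : ¬ (y = b ∧ x = v) :=
      fun h => hcon (Or.inr (Or.inr (Or.inr (Or.inr (Or.inr ⟨h.2, h.1⟩)))))
    unfold tri
    rw [if_neg k1, if_neg k2, if_neg k3, if_neg k4, if_neg k5, if_neg k6]
    ring
  have one1 : (1 : ZMod 2) + 1 = 0 := by decide
  have one2 : (1 : ZMod 2) + (-1) = 0 := by decide
  have gva : g' v a = 0 := by simp only [hg', tva, hva1, Int.cast_one, one1]
  have gav : g' a v = 0 := by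
    simp only [hg', tav, hsymm a v, hva1, Int.cast_neg, Int.cast_one, one2]
  have gbv : g' b v = 0 := by simp only [hg', tbv, hsymm b v, hvb1, Int.cast_one, one1]
  have gvb : g' v b = 0 := by
    simp only [hg', tvb, hvb1, Int.cast_neg, Int.cast_one, one2]
  have hsub : supp g' ⊆ ((supp g) \ {(v, a), (a, v), (v, b), (b, v)}) ∪ {(a, b), (b, a)} := by
    intro p hp
    simp only [supp, Finset.mem_filter, Finset.mem_univ, true_and] at hp
    simp only [Finset.mem_union, Finset.mem_sdiff, supp, Finset.mem_filter, Finset.mem_univ,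
      true_and, Finset.mem_insert, Finset.mem_singleton]
    obtain ⟨x, y⟩ := p
    simp only [Prod.mk.injEq]
    by_cases ht : tri v a b x y = 0
    · left
      simp only [hg', ht, Int.cast_zero, add_zero] at hp
      refine ⟨hp, ?_⟩
      rintro (⟨rfl, rfl⟩ | ⟨rfl, rfl⟩ | ⟨rfl, rfl⟩ | ⟨rfl, rfl⟩)
      · rw [tva] at ht; exact absurd ht (by norm_num)
      · rw [tav] at ht; exact absurd ht (by norm_num)
      · rw [tvb] at ht; exact absurd ht (by norm_num)
      · rw [tbv] at ht; exact absurd ht (by norm_num)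
    · rcases tout x y ht with ⟨rfl, rfl⟩ | ⟨rfl, rfl⟩ | ⟨rfl, rfl⟩ | ⟨rfl, rfl⟩ | ⟨rfl, rfl⟩ |
        ⟨rfl, rfl⟩
      · exact absurd gva hp
      · right; left; exact ⟨rfl, rfl⟩
      · exact absurd gbv hp
      · exact absurd gav hp
      · right; right; exact ⟨rfl, rfl⟩
      · exact absurd gvb hp
  have hfour : ({(v, a), (a, v), (v, b), (b, v)} : Finset (V × V)).card = 4 := by
    rw [Finset.card_insert_of_notMem, Finset.card_insert_of_notMem, Finset.card_insert_of_notMem,
      Finset.card_singleton]
    · simp [hvbne, hvbne.symm]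
    · simp [hne.symm, hba.symm]
    · simp [hne, hba.symm, hvbne]
  have hfsub : ({(v, a), (a, v), (v, b), (b, v)} : Finset (V × V)) ⊆ supp g := by
    intro p hp
    simp only [Finset.mem_insert, Finset.mem_singleton] at hp
    simp only [supp, Finset.mem_filter, Finset.mem_univ, true_and]
    rcases hp with rfl | rfl | rfl | rfl
    · exact hva
    · rw [hsymm]; exact hva
    · exact hvb
    · rw [hsymm]; exact hvb
  have hcard : (supp g').card < n := by
    have h3 := Finset.card_le_card hsub
    have h4 := Finset.card_union_le ((supp g) \ {(v, a), (a, v), (v, b), (b, v)})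
      ({(a, b), (b, a)} : Finset (V × V))
    have h5 : ({(a, b), (b, a)} : Finset (V × V)).card ≤ 2 := Finset.card_le_two
    have h6 := Finset.card_sdiff_of_subset hfsub
    have h7 := Finset.card_le_card hfsub
    omega
  obtain ⟨f, hf1, hf2, hf3, hf4⟩ := ih _ hcard g' rfl (by
      intro x y
      simp only [hg']
      rw [hsymm x y, tri_anti v a b x y, Int.cast_neg, hz]) (by
      intro x
      simp only [hg', hdiag]
      have : tri v a b x x = 0 := by
        have := tri_anti v a b x x
        omega
      rw [this]; simp) (by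
      intro x
      simp only [hg']
      rw [Finset.sum_add_distrib, hsum, ← Int.cast_sum, tri_sum]
      simp)
  -- parity of `f`
  have hpar0 : ∀ x y, g' x y = 0 → f x y = 0 := by
    intro x y h
    have h3 := hf4 x y
    rw [h, ZMod.intCast_zmod_eq_zero_iff_dvd] at h3
    have h4 := abs_le.1 (hf3 x y)
    push_cast at h3
    omega
  have hpar1 : ∀ x y, g' x y ≠ 0 → f x y = 1 ∨ f x y = -1 := by
    intro x y h
    have h4 := abs_le.1 (hf3 x y)
    have h5 : f x y ≠ 0 := by
      intro h5
      have := hf4 x y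
      rw [h5] at this
      exact h (by simpa using this.symm)
    omega
  obtain ⟨c, hc, hc2⟩ : ∃ c : ℤ, (c = 1 ∨ c = -1) ∧ |f a b + c| ≤ 1 := by
    by_cases hab : g' a b = 0
    · refine ⟨1, Or.inl rfl, ?_⟩
      rw [hpar0 a b hab]; simp
    · rcases hpar1 a b hab with h | h
      · exact ⟨-1, Or.inr rfl, by rw [h]; simp⟩
      · exact ⟨1, Or.inl rfl, by rw [h]; simp⟩
  have hc' : |c| ≤ 1 := by rcases hc with rfl | rfl <;> simp
  have fva : f v a = 0 := hpar0 v a gva
  have fvb : f v b = 0 := hpar0 v b gvb
  refine ⟨fun x y => f x y + c * tri v a b x y, ?_, ?_, ?_, ?_⟩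
  · intro x y
    simp only
    rw [hf1 x y, tri_anti v a b x y]; ring
  · intro x
    rw [Finset.sum_add_distrib, hf2, ← Finset.mul_sum, tri_sum]
    simp
  · intro x y
    simp only
    by_cases ht : tri v a b x y = 0
    · rw [ht, mul_zero, add_zero]; exact hf3 x y
    · rcases tout x y ht with ⟨rfl, rfl⟩ | ⟨rfl, rfl⟩ | ⟨rfl, rfl⟩ | ⟨rfl, rfl⟩ | ⟨rfl, rfl⟩ |
        ⟨rfl, rfl⟩
      · rw [tva, fva]; simpa using hc'
      · rw [tab, mul_one]; exact hc2
      · rw [tbv, hf1, fvb]; simpa using hc'
      · rw [tav, hf1, fva]; simpa using hc'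
      · rw [tba, hf1, ← abs_neg]
        convert hc2 using 2
        ring
      · rw [tvb, fvb]; simpa using hc'
  · intro x y
    simp only
    push_cast
    rw [hf4 x y]
    have hc3 : (c : ZMod 2) = 1 := by
      rcases hc with rfl | rfl
      · simp
      · decide
    rw [hc3, one_mul]
    simp only [hg']
    have : ∀ z w : ZMod 2, z + w + w = z := by decide
    exact this _ _

/-- A nonnegative integer matrix with constant row and column sums contains a permutation. -/
lemma hall_nat (M : V → V → ℕ) (k : ℕ) (hk : 0 < k) (hrow : ∀ v, ∑ w, M v w = k)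
    (hcol : ∀ w, ∑ v, M v w = k) : ∃ σ : Equiv.Perm V, ∀ v, M v (σ v) ≠ 0 := by
  let f (i : V) : Finset V := Finset.univ.filter (fun j => M i j ≠ 0)
  have hf (A : Finset V) : A.card ≤ (A.biUnion f).card := by
    have h1 : ∑ i ∈ A, ∑ j ∈ A.biUnion f, M i j = A.card * k := by
      rw [← smul_eq_mul, ← Finset.sum_const]
      apply Finset.sum_congr rfl
      intro i hi
      rw [← hrow i]
      apply Finset.sum_subset (Finset.subset_univ _)
      intro j _ hj
      by_contra h
      apply hj
      rw [Finset.mem_biUnion]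
      exact ⟨i, hi, by simp [f, h]⟩
    have h2 : ∑ i ∈ A, ∑ j ∈ A.biUnion f, M i j ≤ (A.biUnion f).card * k := by
      rw [Finset.sum_comm, ← smul_eq_mul, ← Finset.sum_const]
      apply Finset.sum_le_sum
      intro j _
      rw [← hcol j]
      exact Finset.sum_le_sum_of_subset (Finset.subset_univ A)
    rw [h1] at h2
    exact Nat.le_of_mul_le_mul_right h2 hk
  obtain ⟨g, hg, hg'⟩ := (Finset.all_card_le_biUnion_card_iff_exists_injective f).1 hf
  rw [Finite.injective_iff_bijective] at hg
  refine ⟨Equiv.ofBijective g hg, fun i => ?_⟩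
  have := hg' i
  simpa [f] using this

/-- A nonnegative integer matrix with all row and column sums two is the sum of two permutation
matrices. -/
lemma two_perms (M : V → V → ℕ) (hrow : ∀ v, ∑ w, M v w = 2) (hcol : ∀ w, ∑ v, M v w = 2) :
    ∃ σ τ : Equiv.Perm V, ∀ v w, M v w = (if σ v = w then 1 else 0) + (if τ v = w then 1 else 0) := by
  obtain ⟨σ, hσ⟩ := hall_nat M 2 (by norm_num) hrow hcol
  set M' : V → V → ℕ := fun v w => M v w - (if σ v = w then 1 else 0) with hM'
  have hMM : ∀ v w, M v w = M' v w + (if σ v = w then 1 else 0) := by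
    intro v w
    simp only [hM']
    by_cases h : σ v = w
    · subst h
      have := hσ v
      simp only [if_true]
      omega
    · simp [h]
  have hrow' : ∀ v, ∑ w, M' v w = 1 := by
    intro v
    have h1 : ∑ w, M v w = ∑ w, (M' v w + (if σ v = w then 1 else 0)) :=
      Finset.sum_congr rfl (fun w _ => hMM v w)
    rw [Finset.sum_add_distrib, hrow, Finset.sum_ite_eq] at h1
    simp at h1
    omega
  have hcol' : ∀ w, ∑ v, M' v w = 1 := by
    intro w
    have h1 : ∑ v, M v w = ∑ v, (M' v w + (if σ v = w then 1 else 0)) :=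
      Finset.sum_congr rfl (fun v _ => hMM v w)
    have h2 : ∑ v : V, (if σ v = w then 1 else 0) = 1 := by
      rw [Finset.sum_eq_single (σ.symm w)]
      · simp
      · intro b _ hb
        rw [if_neg]
        rintro rfl
        exact hb (by simp)
      · simp
    rw [Finset.sum_add_distrib, hcol, h2] at h1
    omega
  obtain ⟨τ, hτ⟩ := hall_nat M' 1 one_pos hrow' hcol'
  refine ⟨σ, τ, fun v w => ?_⟩
  rw [hMM v w, add_comm]
  congr 1
  have h1 := hrow' v
  rw [← Finset.add_sum_erase _ _ (Finset.mem_univ (τ v))] at h1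
  have h2 := hτ v
  by_cases h : τ v = w
  · subst h
    simp only [if_true]
    omega
  · rw [if_neg h]
    have h3 : ∑ x ∈ Finset.univ.erase (τ v), M' v x = 0 := by omega
    rw [Finset.sum_eq_zero_iff] at h3
    exact h3 w (Finset.mem_erase.2 ⟨fun h' => h h'.symm, Finset.mem_univ _⟩)

/-- **Two-factors.** A graph with all degrees even and at most four is the edge-disjoint union of
the cycles of two permutations. -/
theorem exists_perms (G : SimpleGraph V) [DecidableRel G.Adj] (heven : ∀ v, Even (G.degree v))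
    (hmax : ∀ v, G.degree v ≤ 4) :
    ∃ σ τ : Equiv.Perm V,
      (∀ v w, v ≠ w → (G.Adj v w ↔ (σ v = w ∨ τ v = w) ∨ (σ w = v ∨ τ w = v))) ∧
      (∀ v, σ v ≠ v → σ v ≠ τ v) ∧
      (∀ v w, v ≠ w → (σ v = w ∨ τ v = w) → ¬ (σ w = v ∨ τ w = v)) := by
  obtain ⟨f, hf1, hf2, hf3, hf4⟩ := flow_aux (supp (fun v w : V => if G.Adj v w then (1 : ZMod 2) else 0)).card
    (fun v w => if G.Adj v w then (1 : ZMod 2) else 0) rfl
    (fun v w => by simp only [G.adj_comm]) (fun v => by simp) (fun v => by
      rw [Finset.sum_boole]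
      have h1 : (Finset.univ.filter (fun w => G.Adj v w)).card = G.degree v := by
        rw [← SimpleGraph.card_neighborFinset_eq_degree]
        congr 1
        ext w; simp
      rw [h1]
      have := heven v
      rw [ZMod.natCast_eq_zero_iff]
      exact this.two_dvd)
  have hadj : ∀ v w, G.Adj v w ↔ (f v w = 1 ∨ f v w = -1) := by
    intro v w
    have h1 := hf4 v w
    have h2 := abs_le.1 (hf3 v w)
    by_cases h : G.Adj v w
    · simp only [h, if_true, true_iff] at h1 ⊢
      have : f v w ≠ 0 := by
        intro h3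
        rw [h3] at h1
        exact absurd h1 (by simp)
      omega
    · simp only [h, if_false, false_iff] at h1 ⊢
      rw [ZMod.intCast_zmod_eq_zero_iff_dvd] at h1
      push_cast at h1
      omega
  set out : V → ℕ := fun v => (Finset.univ.filter (fun w => f v w = 1)).card with hout
  have hin : ∀ v, (Finset.univ.filter (fun w => f v w = -1)).card = out v := by
    intro v
    have h1 := hf2 v
    have h2 : ∑ w, f v w = ∑ w, ((if f v w = 1 then (1 : ℤ) else 0) - (if f v w = -1 then 1 else 0)) := by
      apply Finset.sum_congr rfl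
      intro w _
      have h2 := abs_le.1 (hf3 v w)
      have h3 : f v w = 1 ∨ f v w = 0 ∨ f v w = -1 := by omega
      rcases h3 with h | h | h <;> simp [h]
    rw [h2, Finset.sum_sub_distrib, Finset.sum_boole, Finset.sum_boole] at h1
    simp only [hout]
    omega
  have hdeg : ∀ v, G.degree v = 2 * out v := by
    intro v
    have h1 : G.neighborFinset v = Finset.univ.filter (fun w => f v w = 1) ∪
        Finset.univ.filter (fun w => f v w = -1) := by
      ext w
      simp [hadj]
    rw [← SimpleGraph.card_neighborFinset_eq_degree, h1, Finset.card_union_of_disjoint, hin v]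
    · simp only [hout]; ring
    · rw [Finset.disjoint_filter]
      intro w _ h2 h3
      omega
  have hout2 : ∀ v, out v ≤ 2 := by
    intro v
    have h1 := hdeg v
    have h2 := hmax v
    omega
  obtain ⟨σ, τ, hM⟩ := two_perms (fun v w => (if f v w = 1 then 1 else 0) +
      (if v = w then 2 - out v else 0)) (by
      intro v
      rw [Finset.sum_add_distrib, Finset.sum_ite_eq, ← Finset.card_filter]
      have := hout2 v
      simp only [Finset.mem_univ, if_true]
      simp only [hout] at this ⊢
      omega) (by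
      intro w
      rw [Finset.sum_add_distrib, Finset.sum_ite_eq', ← Finset.card_filter]
      have h1 : (Finset.univ.filter (fun v => f v w = 1)) =
          (Finset.univ.filter (fun v => f w v = -1)) := by
        ext v
        simp only [Finset.mem_filter, Finset.mem_univ, true_and]
        rw [hf1 v w]
        omega
      rw [h1, hin w]
      have := hout2 w
      simp only [Finset.mem_univ, if_true]
      omega)
  have hM' : ∀ v w, v ≠ w → (f v w = 1 ↔ (σ v = w ∨ τ v = w)) ∧ ¬ (σ v = w ∧ τ v = w) := by
    intro v w hvw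
    have h1 := hM v w
    simp only [hvw, if_false, add_zero] at h1
    refine ⟨⟨fun h => ?_, fun h => ?_⟩, fun h => ?_⟩
    · rw [if_pos h] at h1
      by_contra hc
      push Not at hc
      rw [if_neg hc.1, if_neg hc.2] at h1
      omega
    · by_contra hc
      rw [if_neg hc] at h1
      rcases h with h | h <;> rw [if_pos h] at h1 <;> omega
    · rw [if_pos h.1, if_pos h.2] at h1
      split_ifs at h1
      omega
  refine ⟨σ, τ, ?_, ?_, ?_⟩
  · intro v w hvw
    rw [hadj, (hM' v w hvw).1, ← (hM' w v hvw.symm).1]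
    have := hf1 v w
    constructor
    · rintro (h | h)
      · exact Or.inl h
      · right; omega
    · rintro (h | h)
      · exact Or.inl h
      · right; omega
  · intro v hv h
    exact (hM' v (σ v) hv.symm).2 ⟨rfl, h.symm⟩
  · intro v w hvw h h'
    rw [← (hM' v w hvw).1] at h
    rw [← (hM' w v hvw.symm).1] at h'
    have := hf1 v w
    omega

end Pool.Agent.H240P
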