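import Pool.Agent.H240P.Basic

/-!
# A linear forest with exactly two ends is a path (helper240, MP_4dfdc8_co)
-/

set_option autoImplicit false

namespace Pool.Agent.H240P

variable {V : Type*} [Fintype V] [DecidableEq V]

/-- `E` is the set of edges of a path in the complete graph on `V`. -/
def IsPathSet (E : Finset (Sym2 V)) : Prop :=
  ∃ (a b : V) (p : (⊤ : SimpleGraph V).Walk a b), p.IsPath ∧ ∀ e, e ∈ p.edges ↔ e ∈ E

omit [Fintype V] in
lemma deg_erase {E : Finset (Sym2 V)} {e : Sym2 V} (he : e ∈ E) (v : V) :
    deg E v = deg (E.erase e) v + (if v ∈ e then 1 else 0) := by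
  conv_lhs => rw [← Finset.insert_erase he]
  exact deg_insert (Finset.notMem_erase e E) v

lemma eq_empty_of_deg {E : Finset (Sym2 V)} (hE : Lin E) (h : ∀ v, deg E v = 0 ∨ deg E v = 2) :
    E = ∅ := by
  have h1 := hE.acyc (Finset.univ.filter (fun v => deg E v = 2)) (by
    intro e he v hv hvW w hw
    simp only [Finset.mem_filter, Finset.mem_univ, true_and] at hvW ⊢
    have := deg_pos_of_mem he hw
    rcases h w with h | h
    · omega
    · exact h) (by
    intro v hv
    exact (Finset.mem_filter.1 hv).2)
  rw [Finset.eq_empty_iff_forall_notMem]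
  intro e he
  have h2 : ∀ v, deg E v ≠ 2 := by
    intro v hv
    have : v ∈ Finset.univ.filter (fun v => deg E v = 2) := by simp [hv]
    rw [h1] at this
    simp at this
  induction e with
  | _ x y =>
    have := deg_pos_of_mem he (Sym2.mem_mk_left x y)
    rcases h x with h | h
    · omega
    · exact h2 x h

omit [Fintype V] in
lemma Lin.erase {E : Finset (Sym2 V)} (hE : Lin E) {a b : V} (he : s(a, b) ∈ E)
    (ha : deg (E.erase s(a, b)) a ≠ 2) (hb : deg (E.erase s(a, b)) b ≠ 2) :
    Lin (E.erase s(a, b)) := by
  refine ⟨fun e h => hE.nodiag e (Finset.mem_of_mem_erase h), fun v => ?_, fun W hW hd => ?_⟩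
  · have := hE.deg_le v
    rw [deg_erase he] at this
    omega
  · have haW : a ∉ W := fun h => ha (hd a h)
    have hbW : b ∉ W := fun h => hb (hd b h)
    apply hE.acyc W
    · intro e heE v hv hvW w hw
      by_cases h : e = s(a, b)
      · subst h
        rw [Sym2.mem_iff] at hv
        rcases hv with rfl | rfl
        · exact absurd hvW haW
        · exact absurd hvW hbW
      · exact hW e (Finset.mem_erase.2 ⟨h, heE⟩) v hv hvW w hw
    · intro v hv
      rw [deg_erase he, if_neg, hd v hv]
      rw [Sym2.mem_iff]
      rintro (rfl | rfl)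
      · exact haW hv
      · exact hbW hv

lemma exists_path_aux (n : ℕ) : ∀ (E : Finset (Sym2 V)), E.card = n → Lin E → ∀ a b : V, a ≠ b →
    deg E a = 1 → deg E b = 1 → (∀ v, v ≠ a → v ≠ b → deg E v = 0 ∨ deg E v = 2) →
    ∃ p : (⊤ : SimpleGraph V).Walk a b, p.IsPath ∧ ∀ e, e ∈ p.edges ↔ e ∈ E := by
  induction n with
  | zero =>
    intro E hc hE a b hab ha hb hd
    rw [Finset.card_eq_zero] at hc
    subst hc
    simp [deg] at ha
  | succ n ih =>
    intro E hc hE a b hab ha hb hd
    obtain ⟨e, he⟩ := Finset.card_pos.1 (by rw [show (E.filter (fun e => a ∈ e)).card = 1 from ha]; norm_num)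
    rw [Finset.mem_filter] at he
    obtain ⟨heE, hae⟩ := he
    obtain ⟨c, rfl⟩ := hae
    have hac : a ≠ c := by
      intro h
      exact hE.nodiag _ heE (by simpa using h)
    have ha' : deg (E.erase s(a, c)) a = 0 := by
      have := deg_erase heE a
      rw [if_pos (Sym2.mem_mk_left _ _)] at this
      omega
    have hc' : deg E c = deg (E.erase s(a, c)) c + 1 := by
      have := deg_erase heE c
      rwa [if_pos (Sym2.mem_mk_right _ _)] at this
    have hoth : ∀ v, v ≠ a → v ≠ c → deg (E.erase s(a, c)) v = deg E v := by
      intro v h1 h2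
      rw [deg_erase heE v, if_neg (by rw [Sym2.mem_iff]; tauto)]
      rfl
    have hc1 : deg (E.erase s(a, c)) c ≤ 1 := by
      have := hE.deg_le c
      omega
    have hLin : Lin (E.erase s(a, c)) := hE.erase heE (by omega) (by omega)
    by_cases hcb : c = b
    · subst hcb
      have hemp : E.erase s(a, c) = ∅ := by
        apply eq_empty_of_deg hLin
        intro v
        by_cases h1 : v = a
        · subst h1; left; exact ha'
        by_cases h2 : v = c
        · subst h2; left; omega
        rw [hoth v h1 h2]
        exact hd v h1 h2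
      refine ⟨SimpleGraph.Walk.cons (by simpa using hac) SimpleGraph.Walk.nil, ?_, ?_⟩
      · simpa using hac
      · intro e
        rw [← Finset.insert_erase heE, hemp]
        simp
    · have hcd : deg E c = 2 := by
        rcases hd c hac.symm hcb with h | h
        · have := deg_pos_of_mem heE (Sym2.mem_mk_right a c)
          omega
        · exact h
      obtain ⟨p, hp, hpe⟩ := ih (E.erase s(a, c))
        (by rw [Finset.card_erase_of_mem heE, hc]; rfl) hLin c b hcb (by omega)
        (by rw [hoth b hab.symm (fun h => hcb h.symm)]; exact hb) (by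
          intro v h1 h2
          by_cases h3 : v = a
          · subst h3; left; exact ha'
          · rw [hoth v h3 h1]
            exact hd v h3 h2)
      refine ⟨SimpleGraph.Walk.cons (by simpa using hac) p, ?_, ?_⟩
      · rw [SimpleGraph.Walk.cons_isPath_iff]
        refine ⟨hp, ?_⟩
        intro hsup
        rw [SimpleGraph.Walk.mem_support_iff_exists_mem_edges] at hsup
        rcases hsup with h | ⟨e, he, hae⟩
        · exact hab h
        · rw [hpe] at he
          have := deg_pos_of_mem he hae
          omega
      · intro e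
        rw [SimpleGraph.Walk.edges_cons, List.mem_cons, hpe, ← Finset.mem_insert,
          Finset.insert_erase heE]

/-- A linear forest with exactly two vertices of odd degree is a path. -/
lemma exists_path {E : Finset (Sym2 V)} (hE : Lin E) {a b : V} (hab : a ≠ b)
    (h : ∀ v, deg E v = 1 ↔ v = a ∨ v = b) : IsPathSet E := by
  obtain ⟨p, hp, hpe⟩ := exists_path_aux E.card E rfl hE a b hab ((h a).2 (Or.inl rfl))
    ((h b).2 (Or.inr rfl)) (by
      intro v h1 h2
      have h3 := hE.deg_le v
      have h4 : deg E v ≠ 1 := by
        rw [Ne, h v]; tauto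
      omega)
  exact ⟨a, b, p, hp, hpe⟩

end Pool.Agent.H240P
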