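import Pool.Agent.H240P.Merge
import Pool.Agent.H240P.Orient

/-!
# Selection of one edge in each cycle (helper240, MP_4dfdc8_co)
-/

set_option autoImplicit false

namespace Pool.Agent.H240P

variable {V : Type*} [Fintype V] [DecidableEq V]

open Equiv.Perm

/-- The edges `v, σ v` for `v ∈ X`. -/
def edg (σ : Equiv.Perm V) (X : Finset V) : Finset (Sym2 V) := X.image (fun v => s(v, σ v))

/-- Indicator of an edge of the transversal at `v`. -/
def u (σ : Equiv.Perm V) (X : Finset V) (v : V) : ℕ :=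
  (if v ∈ X then 1 else 0) + (if σ.symm v ∈ X then 1 else 0)

omit [Fintype V] [DecidableEq V] in
lemma edge_inj {σ : Equiv.Perm V} (h2 : ∀ v, σ v ≠ v → σ (σ v) ≠ v) {v w : V} (hv : σ v ≠ v)
    (h : s(v, σ v) = s(w, σ w)) : v = w := by
  rw [Sym2.eq_iff] at h
  rcases h with h | h
  · exact h.1
  · exfalso
    apply h2 v hv
    rw [h.2, h.1]

omit [Fintype V] in
lemma edg_insert (σ : Equiv.Perm V) (X : Finset V) (y : V) :
    edg σ (insert y X) = insert s(y, σ y) (edg σ X) := by
  unfold edg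
  rw [Finset.image_insert]

omit [Fintype V] in
lemma deg_edg {σ : Equiv.Perm V} (h2 : ∀ v, σ v ≠ v → σ (σ v) ≠ v) {X : Finset V}
    (hX : ∀ v ∈ X, σ v ≠ v) (v : V) : deg (edg σ X) v = u σ X v := by
  unfold deg edg u
  rw [Finset.filter_image, Finset.card_image_of_injOn]
  · have h3 : X.filter (fun w => v ∈ s(w, σ w)) =
        X.filter (fun w => w = v) ∪ X.filter (fun w => w = σ.symm v) := by
      ext w
      simp only [Finset.mem_filter, Finset.mem_union, Sym2.mem_iff]
      constructor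
      · rintro ⟨h1, rfl | rfl⟩
        · exact Or.inl ⟨h1, rfl⟩
        · exact Or.inr ⟨h1, by simp⟩
      · rintro (⟨h1, rfl⟩ | ⟨h1, rfl⟩)
        · exact ⟨h1, Or.inl rfl⟩
        · exact ⟨h1, Or.inr (by simp)⟩
    rw [h3, Finset.card_union_of_disjoint]
    · rw [Finset.filter_eq', Finset.filter_eq']
      split_ifs <;> simp
    · rw [Finset.disjoint_filter]
      intro w hw h4 h5
      apply hX w hw
      exact (Equiv.eq_symm_apply σ).1 (by rw [← h4] at h5; exact h5)
  · intro a ha b hb hab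
    have ha' : a ∈ X := (Finset.mem_filter.1 ha).1
    exact edge_inj h2 (hX a ha') hab

/-- `R` contains exactly one point of each cycle of `σ` in the invariant set `N`. -/
structure Reps (σ : Equiv.Perm V) (N R : Finset V) : Prop where
  sub : R ⊆ N
  ex : ∀ v ∈ N, ∃ r ∈ R, σ.SameCycle v r
  uniq : ∀ r ∈ R, ∀ s ∈ R, σ.SameCycle r s → r = s

omit [DecidableEq V] in
lemma mem_of_sameCycle {σ : Equiv.Perm V} {W : Finset V} (hW : ∀ v ∈ W, σ v ∈ W) {v w : V}
    (hv : v ∈ W) (h : σ.SameCycle v w) : w ∈ W := by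
  obtain ⟨n, rfl⟩ := h.exists_nat_pow_eq
  induction n with
  | zero => simpa using hv
  | succ n ih =>
    rw [pow_succ', Equiv.Perm.mul_apply]
    exact hW _ (ih ⟨n, by simp⟩)

lemma u_le_one {σ : Equiv.Perm V} {R : Finset V} (hR : Reps σ σ.support R) (v : V) :
    u σ R v ≤ 1 := by
  unfold u
  split_ifs with h1 h2 <;> try omega
  exfalso
  have h3 := hR.uniq _ h2 _ h1 (by rw [sameCycle_symm_apply_left])
  have h4 : σ v = v := by
    conv_lhs => rw [← h3]
    simp
  have h5 := hR.sub h1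
  rw [Equiv.Perm.mem_support] at h5
  exact h5 h4

/-- The rest of the cycles after deleting one edge from each of them. -/
lemma lin_rest {σ : Equiv.Perm V} (h2 : ∀ v, σ v ≠ v → σ (σ v) ≠ v) {R : Finset V}
    (hR : Reps σ σ.support R) : Lin (edg σ (σ.support \ R)) ∧
      (∀ v, deg (edg σ (σ.support \ R)) v + u σ R v = 0 ∨
        deg (edg σ (σ.support \ R)) v + u σ R v = 2) := by
  have hX : ∀ v ∈ σ.support \ R, σ v ≠ v := by
    intro v hv
    exact Equiv.Perm.mem_support.1 (Finset.mem_sdiff.1 hv).1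
  have hdeg := deg_edg h2 hX
  refine ⟨⟨?_, ?_, ?_⟩, ?_⟩
  · intro e he
    obtain ⟨v, hv, rfl⟩ := Finset.mem_image.1 he
    have := hX v hv
    simpa using fun h => this h.symm
  · intro v
    rw [hdeg v]
    unfold u
    split_ifs <;> omega
  · intro W hW hd
    by_contra hne
    obtain ⟨v, hv⟩ := Finset.nonempty_iff_ne_empty.2 hne
    have hmem : ∀ w ∈ W, w ∈ σ.support \ R := by
      intro w hw
      have h3 := hd w hw
      rw [hdeg w] at h3
      by_contra h4
      unfold u at h3
      rw [if_neg h4] at h3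
      split_ifs at h3 <;> omega
    have hcl : ∀ w ∈ W, σ w ∈ W := by
      intro w hw
      exact hW s(w, σ w) (Finset.mem_image.2 ⟨w, hmem w hw, rfl⟩) w (Sym2.mem_mk_left _ _) hw _
        (Sym2.mem_mk_right _ _)
    obtain ⟨r, hr, hvr⟩ := hR.ex v (Finset.mem_sdiff.1 (hmem v hv)).1
    have := hmem r (mem_of_sameCycle hcl hv hvr)
    exact (Finset.mem_sdiff.1 this).2 hr
  · intro v
    rw [hdeg v]
    by_cases hv : v ∈ σ.support
    · right
      have hv' : σ.symm v ∈ σ.support := by
        rw [Equiv.Perm.mem_support] at hv ⊢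
        intro h
        apply hv
        rw [Equiv.apply_symm_apply] at h
        conv_lhs => rw [h]
        simp
      unfold u
      simp only [Finset.mem_sdiff, hv, hv', true_and]
      split_ifs <;> omega
    · left
      have hv' : σ.symm v ∉ σ.support := by
        rw [Equiv.Perm.mem_support] at hv ⊢
        intro h
        apply h
        push Not at hv
        rw [Equiv.apply_symm_apply]
        rw [Equiv.eq_symm_apply]
        exact hv
      unfold u
      have h3 : v ∉ R := fun h => hv (hR.sub h)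
      have h4 : σ.symm v ∉ R := fun h => hv' (hR.sub h)
      simp [hv, hv', h3, h4]

omit [Fintype V] in
/-- A matching is a linear forest. -/
lemma lin_of_le_one {E : Finset (Sym2 V)} (h1 : ∀ e ∈ E, ¬ e.IsDiag) (h2 : ∀ v, deg E v ≤ 1) :
    Lin E := by
  refine ⟨h1, fun v => (h2 v).trans (by norm_num), fun W _ hd => ?_⟩
  by_contra hne
  obtain ⟨v, hv⟩ := Finset.nonempty_iff_ne_empty.2 hne
  have := hd v hv
  have := h2 v
  omega

omit [Fintype V] in
lemma lin_empty_like {E : Finset (Sym2 V)} (h : E = ∅) : Lin E := by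
  subst h
  exact lin_of_le_one (by simp) (by simp [deg])

/-- Adding one edge of a new cycle. -/
lemma extend {τ : Equiv.Perm V} (h2 : ∀ v, τ v ≠ v → τ (τ v) ≠ v) {F : Finset (Sym2 V)}
    (hdeg : ∀ v, deg F v ≤ 1) (hdis : ∀ w, τ w ≠ w → s(w, τ w) ∉ F)
    {Z R : Finset V} (hZ : ∀ v ∈ Z, τ v ≠ v) (hR : Reps τ Z R)
    (hLin : Lin (F ∪ edg τ R)) {z y : V} (hzZ : ∀ v ∈ Z, ¬ τ.SameCycle z v) (hz : τ z ≠ z)
    (hy : τ.SameCycle z y) (hJ : ¬ Joined (F ∪ edg τ R) y (τ y)) :
    Lin (F ∪ edg τ (insert y R)) ∧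
      Reps τ (Z ∪ Finset.univ.filter (fun v => τ.SameCycle z v)) (insert y R) := by
  have hRn : ∀ v ∈ R, τ v ≠ v := fun v hv => hZ v (hR.sub hv)
  have hDis : Disjoint F (edg τ R) := by
    rw [Finset.disjoint_left]
    intro e he he'
    obtain ⟨v, hv, rfl⟩ := Finset.mem_image.1 he'
    exact hdis v (hRn v hv) he
  have hdeg0 : ∀ v, τ.SameCycle z v → deg (F ∪ edg τ R) v ≤ 1 := by
    intro v hv
    rw [deg_union hDis, deg_edg h2 hRn]
    have h3 : v ∉ R := fun h => hzZ v (hR.sub h) hv
    have h4 : τ.symm v ∉ R := fun h => hzZ _ (hR.sub h) (by rwa [sameCycle_symm_apply_right])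
    unfold u
    rw [if_neg h3, if_neg h4]
    exact hdeg v
  have hyy : τ y ≠ y := by
    intro h
    exact hz ((hy.apply_eq_self_iff).2 h)
  obtain ⟨-, hL⟩ := hLin.add hyy.symm (hdeg0 y hy) (hdeg0 (τ y) (by rwa [sameCycle_apply_right])) hJ
  refine ⟨?_, ?_, ?_, ?_⟩
  · rw [edg_insert, Finset.union_insert]
    exact hL
  · intro v hv
    rw [Finset.mem_insert] at hv
    rw [Finset.mem_union]
    rcases hv with rfl | hv
    · right; simpa using hy
    · left; exact hR.sub hv
  · intro v hv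
    rw [Finset.mem_union] at hv
    rcases hv with hv | hv
    · obtain ⟨r, hr, hvr⟩ := hR.ex v hv
      exact ⟨r, Finset.mem_insert_of_mem hr, hvr⟩
    · simp only [Finset.mem_filter, Finset.mem_univ, true_and] at hv
      exact ⟨y, Finset.mem_insert_self _ _, hv.symm.trans hy⟩
  · intro r hr s hs hrs
    rw [Finset.mem_insert] at hr hs
    rcases hr with rfl | hr <;> rcases hs with rfl | hs
    · rfl
    · exact absurd (hy.trans hrs) (hzZ s (hR.sub hs))
    · exact absurd (hy.trans hrs.symm) (hzZ r (hR.sub hr))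
    · exact hR.uniq r hr s hs hrs

lemma greedy {τ : Equiv.Perm V} (h2 : ∀ v, τ v ≠ v → τ (τ v) ≠ v) {F : Finset (Sym2 V)}
    (hF : Lin F) (hdeg : ∀ v, deg F v ≤ 1) (hdis : ∀ w, τ w ≠ w → s(w, τ w) ∉ F) (n : ℕ) :
    ∀ Z : Finset V, Z.card = n → (∀ v ∈ Z, τ v ≠ v) → (∀ v ∈ Z, ∀ w, τ.SameCycle v w → w ∈ Z) →
      ∃ R : Finset V, Reps τ Z R ∧ Lin (F ∪ edg τ R) := by
  induction n using Nat.strong_induction_on with
  | _ n ih =>
  intro Z hZc hZ hinv
  by_cases hne : Z = ∅
  · subst hne
    refine ⟨∅, ⟨by simp, by simp, by simp⟩, ?_⟩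
    simpa [edg] using hF
  obtain ⟨z, hz⟩ := Finset.nonempty_iff_ne_empty.2 hne
  set O : Finset V := Finset.univ.filter (fun v => τ.SameCycle z v) with hO
  have hOZ : O ⊆ Z := by
    intro v hv
    simp only [hO, Finset.mem_filter, Finset.mem_univ, true_and] at hv
    exact hinv z hz v hv
  have hzO : z ∈ O := by simp [hO, SameCycle.refl]
  have hlt : (Z \ O).card < n := by
    rw [← hZc]
    apply Finset.card_lt_card
    rw [Finset.ssubset_iff_of_subset Finset.sdiff_subset]
    exact ⟨z, hz, by simp [hzO]⟩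
  obtain ⟨R, hR, hL⟩ := ih _ hlt (Z \ O) rfl (fun v hv => hZ v (Finset.mem_sdiff.1 hv).1) (by
    intro v hv w hvw
    rw [Finset.mem_sdiff] at hv ⊢
    refine ⟨hinv v hv.1 w hvw, fun h => hv.2 ?_⟩
    simp only [hO, Finset.mem_filter, Finset.mem_univ, true_and] at h ⊢
    exact h.trans hvw.symm)
  have hzZ : ∀ v ∈ Z \ O, ¬ τ.SameCycle z v := by
    intro v hv h
    rw [Finset.mem_sdiff] at hv
    apply hv.2
    simpa [hO] using h
  have hZO : (Z \ O) ∪ O = Z := Finset.sdiff_union_of_subset hOZ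
  have hzz := hZ z hz
  have hnotboth : ¬ (Joined (F ∪ edg τ R) z (τ z) ∧ Joined (F ∪ edg τ R) z (τ.symm z)) := by
    rintro ⟨h3, h4⟩
    refine joined_unique hL.nodiag hzz.symm ?_ ?_ h3 h4
    · intro h
      apply hzz
      conv_lhs => rw [h]
      simp
    · intro h
      apply h2 z hzz
      rw [h]; simp
  by_cases hJ : Joined (F ∪ edg τ R) z (τ z)
  · have hJ' : ¬ Joined (F ∪ edg τ R) (τ.symm z) (τ (τ.symm z)) := by
      rw [Equiv.apply_symm_apply]
      intro h
      exact hnotboth ⟨hJ, h.symm⟩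
    have := extend h2 hdeg hdis (fun v hv => hZ v (Finset.mem_sdiff.1 hv).1) hR hL hzZ hzz
      (y := τ.symm z) (by rw [sameCycle_symm_apply_right]) hJ'
    rw [← hO, hZO] at this
    exact ⟨_, this.2, this.1⟩
  · have := extend h2 hdeg hdis (fun v hv => hZ v (Finset.mem_sdiff.1 hv).1) hR hL hzZ hzz
      (y := z) (SameCycle.refl _ _) hJ
    rw [← hO, hZO] at this
    exact ⟨_, this.2, this.1⟩

/-- A system of representatives of the cycles with prescribed property. -/
lemma exists_reps (σ : Equiv.Perm V) (Q : V → Prop)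
    (hQ : ∀ v ∈ σ.support, ∃ p, σ.SameCycle v p ∧ Q p) :
    ∃ R : Finset V, Reps σ σ.support R ∧ ∀ r ∈ R, Q r := by
  classical
  have hQ' : ∀ q : Quotient (SameCycle.setoid σ), ∃ p : V,
      (Quotient.mk (SameCycle.setoid σ) p = q) ∧ (p ∈ σ.support → Q p) := by
    intro q
    induction q using Quotient.inductionOn with
    | _ v =>
      by_cases hv : v ∈ σ.support
      · obtain ⟨p, hp, hq⟩ := hQ v hv
        exact ⟨p, Quotient.sound hp.symm, fun _ => hq⟩
      · exact ⟨v, rfl, fun h => absurd h hv⟩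
  choose f hf1 hf2 using hQ'
  refine ⟨σ.support.filter (fun v => f (Quotient.mk (SameCycle.setoid σ) v) = v),
    ⟨Finset.filter_subset _ _, ?_, ?_⟩, ?_⟩
  · intro v hv
    have h1 : σ.SameCycle v (f (Quotient.mk (SameCycle.setoid σ) v)) := by
      have := hf1 (Quotient.mk (SameCycle.setoid σ) v)
      exact (Quotient.exact this).symm
    refine ⟨f (Quotient.mk (SameCycle.setoid σ) v), ?_, h1⟩
    rw [Finset.mem_filter]
    constructor
    · rw [Equiv.Perm.mem_support] at hv ⊢
      intro h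
      exact hv ((h1.apply_eq_self_iff).2 h)
    · rw [hf1]
  · intro r hr s hs hrs
    rw [Finset.mem_filter] at hr hs
    rw [← hr.2, ← hs.2]
    congr 1
    exact Quotient.sound hrs
  · intro r hr
    rw [Finset.mem_filter] at hr
    have := hf2 (Quotient.mk (SameCycle.setoid σ) r)
    rw [hr.2] at this
    exact this hr.1

/-- Selection of a transversal meeting `a` and avoiding `x` and `y`. -/
lemma select {σ : Equiv.Perm V} (h2 : ∀ v, σ v ≠ v → σ (σ v) ≠ v) {a x y : V}
    (ha : σ a ≠ a) (hp : ∃ p, (p = a ∨ σ p = a) ∧ p ≠ x ∧ p ≠ y ∧ σ p ≠ x ∧ σ p ≠ y)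
    (hxy : x ≠ y) (H : ¬ σ.SameCycle x y ∨ (σ.SameCycle a x ∧ σ.SameCycle a y)) :
    ∃ R : Finset V, Reps σ σ.support R ∧ u σ R a = 1 ∧ u σ R x = 0 ∧ u σ R y = 0 := by
  obtain ⟨R, hR, hQ⟩ := exists_reps σ
    (fun p => (p ≠ x ∧ p ≠ y ∧ σ p ≠ x ∧ σ p ≠ y) ∧ (σ.SameCycle a p → (p = a ∨ σ p = a))) (by
    intro v hv
    rw [Equiv.Perm.mem_support] at hv
    by_cases hav : σ.SameCycle a v
    · obtain ⟨p, hp1, hp2⟩ := hp
      refine ⟨p, ?_, hp2, fun _ => hp1⟩
      have : σ.SameCycle a p := by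
        rcases hp1 with rfl | rfl
        · exact SameCycle.refl _ _
        · rw [sameCycle_apply_left]
      exact hav.symm.trans this
    · have H' : ¬ (σ.SameCycle v x ∧ σ.SameCycle v y) := by
        rintro ⟨h3, h4⟩
        rcases H with H | H
        · exact H (h3.symm.trans h4)
        · exact hav (H.1.trans h3.symm)
      by_cases hvx : σ.SameCycle v x
      · have hvy : ¬ σ.SameCycle v y := fun h => H' ⟨hvx, h⟩
        have hx : σ x ≠ x := by
          intro h
          exact hv ((hvx.apply_eq_self_iff).2 h)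
        refine ⟨σ x, by rwa [sameCycle_apply_right], ⟨hx, ?_, h2 x hx, ?_⟩, ?_⟩
        · rintro rfl
          exact hvy (by rwa [sameCycle_apply_right])
        · rintro rfl
          exact hvy (by rwa [sameCycle_apply_right, sameCycle_apply_right])
        · intro h
          exact absurd ((sameCycle_apply_right.1 h).trans hvx.symm) hav
      by_cases hvy : σ.SameCycle v y
      · have hy : σ y ≠ y := by
          intro h
          exact hv ((hvy.apply_eq_self_iff).2 h)
        refine ⟨σ y, by rwa [sameCycle_apply_right], ⟨?_, hy, ?_, h2 y hy⟩, ?_⟩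
        · rintro rfl
          exact hvx (by rwa [sameCycle_apply_right])
        · rintro rfl
          exact hvx (by rwa [sameCycle_apply_right, sameCycle_apply_right])
        · intro h
          exact absurd ((sameCycle_apply_right.1 h).trans hvy.symm) hav
      refine ⟨v, SameCycle.refl _ _, ⟨?_, ?_, ?_, ?_⟩, ?_⟩
      · rintro rfl; exact hvx (SameCycle.refl _ _)
      · rintro rfl; exact hvy (SameCycle.refl _ _)
      · rintro rfl; exact hvx (by rw [sameCycle_apply_right])
      · rintro rfl; exact hvy (by rw [sameCycle_apply_right])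
      · intro h; exact absurd h hav)
  have hzero : ∀ w, (∀ r ∈ R, r ≠ w ∧ σ r ≠ w) → u σ R w = 0 := by
    intro w hw
    unfold u
    rw [if_neg (fun h => (hw w h).1 rfl), if_neg (fun h => (hw _ h).2 (by simp))]
  refine ⟨R, hR, ?_, ?_, ?_⟩
  · have h3 := u_le_one hR a
    obtain ⟨r, hr, har⟩ := hR.ex a (Equiv.Perm.mem_support.2 ha)
    have h4 : 1 ≤ u σ R a := by
      unfold u
      rcases (hQ r hr).2 har with h | h
      · rw [← h, if_pos hr]; omega
      · rw [← h, Equiv.symm_apply_apply, if_pos hr]; omega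
    omega
  · exact hzero x fun r hr => ⟨(hQ r hr).1.1, (hQ r hr).1.2.2.1⟩
  · exact hzero y fun r hr => ⟨(hQ r hr).1.2.1, (hQ r hr).1.2.2.2⟩

end Pool.Agent.H240P
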